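import Pool.Agent.P8H8.SV.Stm
import Pool.Agent.Helper114.SideLog

/-! # Package CUB of project SV (helper93): the cubic identity from the flux identity and the
boundary values -/

set_option autoImplicit false

open MeasureTheory Set Filter Metric
open scoped Topology ContDiff ComplexConjugate

namespace Pool.Agent.P8H93.SV

open Pool.Agent.P8H8.SV
open Pool.Agent.TH298.Sch (SC dd Lr)
open Pool.Agent.R227.SA (la Dat)

theorem exp_mem {r : ℝ} (hr : 1 < r) {ζ : ℂ} (h : ζ.re ≤ 0) : Complex.exp ζ ∈ ball (0 : ℂ) r := by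
  rw [mem_ball_zero_iff, Complex.norm_exp]
  exact lt_of_le_of_lt (Real.exp_le_one_iff.2 h) hr

variable {φ : ℂ → ℂ} {r : ℝ}

theorem cont_phi (hD : Dom φ r) : ContinuousOn (fun ζ : ℂ => φ (Complex.exp ζ)) {ζ | ζ.re ≤ 0} :=
  hD.hol.continuousOn.comp Complex.continuous_exp.continuousOn fun _ h => exp_mem hD.hr h

theorem cont_dF (hD : Dom φ r) : ContinuousOn (dF φ) {ζ | ζ.re ≤ 0} := by
  unfold dF
  apply Complex.continuous_exp.continuousOn.mul
  exact (hD.hol.deriv isOpen_ball).continuousOn.comp Complex.continuous_exp.continuousOn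
    fun _ h => exp_mem hD.hr h

theorem dF_ne (hD : Dom φ r) {ζ : ℂ} (h : ζ.re ≤ 0) : dF φ ζ ≠ 0 :=
  mul_ne_zero (Complex.exp_ne_zero _)
    (Pool.Agent.Helper114.SideLog.deriv_ne_zero_of_injOn isOpen_ball hD.hol hD.inj (exp_mem hD.hr h))

theorem cont_kz (hD : Dom φ r) (a : ℂ) (b : ℝ) : ContinuousOn (kz φ a b) {ζ | ζ.re ≤ 0} := by
  unfold kz kf
  apply ContinuousOn.div
  · exact continuousOn_const.add (continuousOn_const.mul (cont_phi hD))
  · exact cont_dF hD
  · intro ζ h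
    exact dF_ne hD h

theorem re_line (x y : ℝ) : ((x : ℂ) + y * Complex.I).re = x := by simp

theorem dF_line (y : ℝ) : dF φ ((0 : ℝ) + y * Complex.I) = N φ y := by
  unfold dF N
  rw [Complex.ofReal_zero, zero_add]

theorem kz_line (a : ℂ) (b : ℝ) (y : ℝ) :
    kz φ a b ((0 : ℝ) + y * Complex.I) = kf a b (γ φ y) / N φ y := by
  unfold kz
  rw [dF_line, Complex.ofReal_zero, zero_add]
  rfl

theorem kz_re (a : ℂ) (b : ℝ) (y : ℝ) :
    (kz φ a b ((0 : ℝ) + y * Complex.I)).re = ip (kf a b (γ φ y)) (N φ y) / ‖N φ y‖ ^ 2 := by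
  rw [kz_line]
  unfold ip
  rw [Complex.div_re, Complex.sq_norm, Complex.mul_re, Complex.conj_re, Complex.conj_im]
  ring

theorem cont_line (x : ℝ) (hx : x ≤ 0) {E : Type} [TopologicalSpace E] {f : ℂ → E}
    (hf : ContinuousOn f {ζ | ζ.re ≤ 0}) : Continuous fun y : ℝ => f (x + y * Complex.I) := by
  rw [← continuousOn_univ]
  refine hf.comp (by fun_prop) fun y _ => ?_
  show ((x : ℂ) + y * Complex.I).re ≤ 0
  rw [re_line]
  exact hx

theorem tend_line {E : Type} [TopologicalSpace E] {f : ℂ → E}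
    (hf : ContinuousOn f {ζ | ζ.re ≤ 0}) (y : ℝ) :
    Tendsto (fun x : ℝ => f (x + y * Complex.I)) (𝓝[<] 0) (𝓝 (f ((0 : ℝ) + y * Complex.I))) := by
  have h1 : ContinuousWithinAt f {ζ | ζ.re ≤ 0} ((0 : ℝ) + y * Complex.I) :=
    hf _ (by show ((((0 : ℝ) : ℂ)) + y * Complex.I).re ≤ 0; rw [re_line])
  refine h1.tendsto.comp ?_
  rw [tendsto_nhdsWithin_iff]
  constructor
  · have h2 : Continuous fun x : ℝ => (x : ℂ) + y * Complex.I := by fun_prop
    exact (h2.tendsto 0).mono_left nhdsWithin_le_nhds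
  · filter_upwards [self_mem_nhdsWithin] with x hx
    show ((x : ℂ) + y * Complex.I).re ≤ 0
    rw [re_line]
    exact (mem_Iio.1 hx).le

theorem bound_line {f : ℂ → ℂ} (hf : ContinuousOn f {ζ | ζ.re ≤ 0}) : ∃ A : ℝ, 0 ≤ A ∧
    ∀ x ∈ Icc (-1 : ℝ) 0, ∀ y ∈ Icc (0 : ℝ) (2 * Real.pi), ‖f (x + y * Complex.I)‖ ≤ A := by
  have h1 : ContinuousOn (fun p : ℝ × ℝ => f (p.1 + p.2 * Complex.I))
      (Icc (-1 : ℝ) 0 ×ˢ Icc (0 : ℝ) (2 * Real.pi)) := by
    refine hf.comp (by fun_prop) fun p hp => ?_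
    show ((p.1 : ℂ) + p.2 * Complex.I).re ≤ 0
    rw [re_line]
    exact hp.1.2
  obtain ⟨A, hA⟩ := (isCompact_Icc.prod isCompact_Icc).exists_bound_of_continuousOn h1
  refine ⟨A, ?_, fun x hx y hy => hA (x, y) ⟨hx, hy⟩⟩
  exact (norm_nonneg _).trans (hA (0, 0) ⟨⟨by norm_num, le_rfl⟩, ⟨le_rfl, by positivity⟩⟩)

theorem PP_eq (v : ℂ → ℝ) (a : ℂ) (b : ℝ) (ζ : ℂ) : PP φ v a b ζ =
    fderiv ℝ v (φ (Complex.exp ζ)) (kf a b (φ (Complex.exp ζ))) := rfl

theorem cont_PP (hD : Dom φ r) {v : ℂ → ℝ} (hv : ContDiff ℝ 1 v) (a : ℂ) (b : ℝ) :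
    ContinuousOn (PP φ v a b) {ζ | ζ.re ≤ 0} := by
  have h1 : Continuous (fderiv ℝ v) := hv.continuous_fderiv one_ne_zero
  have h2 : ContinuousOn (fun ζ : ℂ => fderiv ℝ v (φ (Complex.exp ζ))) {ζ | ζ.re ≤ 0} :=
    h1.comp_continuousOn (cont_phi hD)
  have h3 : ContinuousOn (fun ζ : ℂ => kf a b (φ (Complex.exp ζ))) {ζ | ζ.re ≤ 0} := by
    unfold kf
    exact continuousOn_const.add (continuousOn_const.mul (cont_phi hD))
  exact h2.clm_apply h3

theorem meas_dd (f : ℂ → ℝ) (e : ℂ) (x : ℝ) :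
    Measurable fun y : ℝ => dd e f (x + y * Complex.I) := by
  have h1 : Measurable fun z : ℂ => fderiv ℝ f z e := measurable_fderiv_apply_const ℝ f e
  exact h1.comp (by fun_prop : Continuous fun y : ℝ => (x : ℂ) + y * Complex.I).measurable

/-- package CUB -/
theorem t_CUB : S_FLUX → S_LIM → S_CUB := by
  intro hflux hlim φ r lam c v hD hlam hc hdat a b
  have hpi := Real.pi_pos
  -- boundary data
  obtain ⟨k, hk⟩ : ∃ k : Fin 3 → ℝ → ℝ, k = fun i y => ip (kf (a i) (b i) (γ φ y)) (N φ y) := ⟨_, rfl⟩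
  have hkc : ∀ i, Continuous (k i) := by
    intro i
    have h1 : Continuous fun y : ℝ => φ (Complex.exp ((0 : ℝ) + y * Complex.I)) :=
      cont_line 0 le_rfl (cont_phi hD)
    have h2 : Continuous fun y : ℝ => dF φ ((0 : ℝ) + y * Complex.I) := cont_line 0 le_rfl (cont_dF hD)
    have e1 : k i = fun y : ℝ => ip (kf (a i) (b i) (φ (Complex.exp ((0 : ℝ) + y * Complex.I))))
        (dF φ ((0 : ℝ) + y * Complex.I)) := by
      rw [hk]
      funext y
      simp only
      rw [dF_line, Complex.ofReal_zero, zero_add]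
      rfl
    rw [e1]
    unfold ip kf
    exact Complex.continuous_re.comp ((continuous_const.add (continuous_const.mul h1)).mul
      (Complex.continuous_conj.comp h2))
  have hLP : ∀ (i : Fin 3) (y : ℝ),
      Tendsto (fun x : ℝ => PP φ v (a i) (b i) (x + y * Complex.I)) (𝓝[<] 0) (𝓝 0) := by
    intro i y
    rw [Metric.tendsto_nhdsWithin_nhds]
    intro ε hε
    obtain ⟨δ, hδ, h⟩ := hlim φ r lam c v (a i) (b i) hD hdat ε hε
    refine ⟨δ, hδ, fun x hx hxd => ?_⟩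
    rw [Real.dist_eq, sub_zero] at hxd ⊢
    exact (h x y (abs_lt.1 hxd).1 hx).1
  have hLY : ∀ (i : Fin 3) (y : ℝ),
      Tendsto (fun x : ℝ => dd Complex.I (PP φ v (a i) (b i)) (x + y * Complex.I)) (𝓝[<] 0) (𝓝 0) := by
    intro i y
    rw [Metric.tendsto_nhdsWithin_nhds]
    intro ε hε
    obtain ⟨δ, hδ, h⟩ := hlim φ r lam c v (a i) (b i) hD hdat ε hε
    refine ⟨δ, hδ, fun x hx hxd => ?_⟩
    rw [Real.dist_eq, sub_zero] at hxd ⊢
    exact (h x y (abs_lt.1 hxd).1 hx).2.1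
  have hLX : ∀ (i : Fin 3) (y : ℝ),
      Tendsto (fun x : ℝ => dd 1 (PP φ v (a i) (b i)) (x + y * Complex.I)) (𝓝[<] 0)
        (𝓝 (-(lam * c * k i y))) := by
    intro i y
    rw [Metric.tendsto_nhdsWithin_nhds]
    intro ε hε
    obtain ⟨δ, hδ, h⟩ := hlim φ r lam c v (a i) (b i) hD hdat ε hε
    refine ⟨δ, hδ, fun x hx hxd => ?_⟩
    rw [Real.dist_eq, sub_zero] at hxd
    rw [Real.dist_eq, sub_neg_eq_add, hk]
    exact (h x y (abs_lt.1 hxd).1 hx).2.2
  -- the limit of the flux density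
  have hLim : ∀ y : ℝ, Tendsto (fun x : ℝ => flux φ lam v a b (x + y * Complex.I)) (𝓝[<] 0)
      (𝓝 ((lam * c) ^ 2 * ((∏ i, k i y) / ‖N φ y‖ ^ 2))) := by
    intro y
    have t1 := (Complex.continuous_re.tendsto _).comp (tend_line (cont_kz hD (a 1) (b 1)) y)
    have t2 := (Complex.continuous_im.tendsto _).comp (tend_line (cont_kz hD (a 1) (b 1)) y)
    have t3 := (tend_line (cont_dF hD) y).norm.pow 2
    have h1 := ((t1.mul (((hLX 0 y).mul (hLX 2 y)).sub ((hLY 0 y).mul (hLY 2 y)))).add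
      (t2.mul (((hLX 0 y).mul (hLY 2 y)).add ((hLY 0 y).mul (hLX 2 y))))).add
      (((((tendsto_const_nhds (x := lam)).mul t3).mul t1).mul (hLP 0 y)).mul (hLP 2 y))
    have e : (kz φ (a 1) (b 1) ((0 : ℝ) + y * Complex.I)).re *
        (-(lam * c * k 0 y) * -(lam * c * k 2 y) - 0 * 0) +
        (kz φ (a 1) (b 1) ((0 : ℝ) + y * Complex.I)).im *
          (-(lam * c * k 0 y) * 0 + 0 * -(lam * c * k 2 y)) +
        lam * ‖dF φ ((0 : ℝ) + y * Complex.I)‖ ^ 2 *
          (kz φ (a 1) (b 1) ((0 : ℝ) + y * Complex.I)).re * 0 * 0 =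
        (lam * c) ^ 2 * ((∏ i, k i y) / ‖N φ y‖ ^ 2) := by
      rw [kz_re, Fin.prod_univ_three, hk]
      ring
    rw [← e]
    exact h1
  -- bounds
  obtain ⟨A, hA0, hA⟩ := bound_line (cont_kz hD (a 1) (b 1))
  obtain ⟨F, hF0, hF⟩ := bound_line (cont_dF hD)
  obtain ⟨B0, hB0⟩ := isCompact_Icc.exists_bound_of_continuousOn (s := Icc (0 : ℝ) (2 * Real.pi))
    (hkc 0).continuousOn
  obtain ⟨B2, hB2⟩ := isCompact_Icc.exists_bound_of_continuousOn (s := Icc (0 : ℝ) (2 * Real.pi))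
    (hkc 2).continuousOn
  obtain ⟨T, hT⟩ : ∃ T : ℝ, T = 1 + |lam * c| * (|B0| + |B2|) := ⟨_, rfl⟩
  have hT1 : 1 ≤ T := by rw [hT]; linarith [show 0 ≤ |lam * c| * (|B0| + |B2|) by positivity]
  obtain ⟨δ0, hδ0, hl0⟩ := hlim φ r lam c v (a 0) (b 0) hD hdat 1 one_pos
  obtain ⟨δ2, hδ2, hl2⟩ := hlim φ r lam c v (a 2) (b 2) hD hdat 1 one_pos
  have hXb : ∀ (X k' B : ℝ), |X + lam * c * k'| < 1 → |k'| ≤ B → |B| ≤ |B0| + |B2| → |X| ≤ T := by
    intro X k' B h1 h2 h3
    have h4 : |X| ≤ |X + lam * c * k'| + |lam * c * k'| := by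
      have e : X = (X + lam * c * k') - lam * c * k' := by ring
      calc |X| = |(X + lam * c * k') - lam * c * k'| := by rw [← e]
        _ ≤ _ := abs_sub _ _
    rw [abs_mul (lam * c)] at h4
    have h5 : |lam * c| * |k'| ≤ |lam * c| * (|B0| + |B2|) :=
      mul_le_mul_of_nonneg_left ((h2.trans (le_abs_self B)).trans h3) (abs_nonneg _)
    rw [hT]
    linarith
  have hbound : ∀ᶠ x : ℝ in 𝓝[<] 0, ∀ᵐ y ∂(volume : Measure ℝ), y ∈ uIoc 0 (2 * Real.pi) →
      ‖flux φ lam v a b (x + y * Complex.I)‖ ≤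
        A * (T * T + 1) + A * (T + T) + |lam| * F ^ 2 * A := by
    have h1 : Ioo (-(min 1 (min δ0 δ2))) 0 ∈ 𝓝[<] (0 : ℝ) :=
      Ioo_mem_nhdsLT (by
        have : 0 < min 1 (min δ0 δ2) := lt_min one_pos (lt_min hδ0 hδ2)
        linarith)
    filter_upwards [h1] with x hx
    refine Eventually.of_forall fun y hy => ?_
    rw [uIoc_of_le (by positivity)] at hy
    have hy' : y ∈ Icc (0 : ℝ) (2 * Real.pi) := ⟨hy.1.le, hy.2⟩
    have hx1 : -1 < x := lt_of_le_of_lt (neg_le_neg (min_le_left _ _)) hx.1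
    have hx2 : -δ0 < x := lt_of_le_of_lt (neg_le_neg ((min_le_right _ _).trans (min_le_left _ _))) hx.1
    have hx3 : -δ2 < x := lt_of_le_of_lt (neg_le_neg ((min_le_right _ _).trans (min_le_right _ _))) hx.1
    obtain ⟨p0, y0, x0⟩ := hl0 x y hx2 hx.2
    obtain ⟨p2, y2, x2⟩ := hl2 x y hx3 hx.2
    have hk0 : |k 0 y| ≤ B0 := hB0 y hy'
    have hk2 : |k 2 y| ≤ B2 := hB2 y hy'
    have X0 := hXb _ (k 0 y) B0 (by rw [hk]; exact x0) hk0 (by linarith [abs_nonneg B2])
    have X2 := hXb _ (k 2 y) B2 (by rw [hk]; exact x2) hk2 (by linarith [abs_nonneg B0])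
    have hα := (Complex.abs_re_le_norm _).trans (hA x ⟨hx1.le, hx.2.le⟩ y hy')
    have hβ := (Complex.abs_im_le_norm _).trans (hA x ⟨hx1.le, hx.2.le⟩ y hy')
    have hm := hF x ⟨hx1.le, hx.2.le⟩ y hy'
    have hMnn := norm_nonneg (dF φ (x + y * Complex.I))
    unfold flux
    generalize PP φ v (a 0) (b 0) (x + y * Complex.I) = P0 at *
    generalize PP φ v (a 2) (b 2) (x + y * Complex.I) = P2 at *
    generalize dd 1 (PP φ v (a 0) (b 0)) (x + y * Complex.I) = U0 at *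
    generalize dd 1 (PP φ v (a 2) (b 2)) (x + y * Complex.I) = U2 at *
    generalize dd Complex.I (PP φ v (a 0) (b 0)) (x + y * Complex.I) = Y0 at *
    generalize dd Complex.I (PP φ v (a 2) (b 2)) (x + y * Complex.I) = Y2 at *
    generalize (kz φ (a 1) (b 1) (x + y * Complex.I)).re = α at *
    generalize (kz φ (a 1) (b 1) (x + y * Complex.I)).im = β at *
    generalize ‖dF φ (x + y * Complex.I)‖ = M at *
    have hM2 : |M ^ 2| ≤ F ^ 2 := by
      rw [abs_of_nonneg (sq_nonneg M)]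
      exact pow_le_pow_left₀ hMnn hm 2
    rw [Real.norm_eq_abs]
    have g1 : |α * (U0 * U2 - Y0 * Y2)| ≤ A * (T * T + 1) := by
      rw [abs_mul]
      apply mul_le_mul hα _ (abs_nonneg _) hA0
      refine (abs_sub _ _).trans ?_
      rw [abs_mul, abs_mul]
      apply add_le_add
      · exact mul_le_mul X0 X2 (abs_nonneg _) (by linarith)
      · calc |Y0| * |Y2| ≤ 1 * 1 := mul_le_mul y0.le y2.le (abs_nonneg _) zero_le_one
          _ = 1 := one_mul 1
    have g2 : |β * (U0 * Y2 + Y0 * U2)| ≤ A * (T + T) := by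
      rw [abs_mul]
      apply mul_le_mul hβ _ (abs_nonneg _) hA0
      refine (abs_add_le _ _).trans ?_
      rw [abs_mul, abs_mul]
      apply add_le_add
      · calc |U0| * |Y2| ≤ T * 1 := mul_le_mul X0 y2.le (abs_nonneg _) (by linarith)
          _ = T := mul_one T
      · calc |Y0| * |U2| ≤ 1 * T := mul_le_mul y0.le X2 (abs_nonneg _) zero_le_one
          _ = T := one_mul T
    have g3 : |lam * M ^ 2 * α * P0 * P2| ≤ |lam| * F ^ 2 * A := by
      rw [abs_mul, abs_mul, abs_mul, abs_mul]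
      calc |lam| * |M ^ 2| * |α| * |P0| * |P2| ≤ |lam| * F ^ 2 * A * 1 * 1 := by gcongr
        _ = _ := by ring
    exact (abs_add_three _ _ _).trans (add_le_add (add_le_add g1 g2) g3)
  have hmeas : ∀ᶠ x : ℝ in 𝓝[<] 0, AEStronglyMeasurable
      (fun y : ℝ => flux φ lam v a b (x + y * Complex.I))
      ((volume : Measure ℝ).restrict (uIoc 0 (2 * Real.pi))) := by
    filter_upwards [self_mem_nhdsWithin] with x hx
    have hx' : x ≤ 0 := (mem_Iio.1 hx).le
    have c1 := (cont_line x hx' (cont_kz hD (a 1) (b 1))).measurable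
    have c2 := (cont_line x hx' (cont_dF hD)).measurable
    have c3 := (cont_line x hx' (cont_PP hD hdat.c1 (a 0) (b 0))).measurable
    have c4 := (cont_line x hx' (cont_PP hD hdat.c1 (a 2) (b 2))).measurable
    have d1 := meas_dd (PP φ v (a 0) (b 0)) 1 x
    have d2 := meas_dd (PP φ v (a 2) (b 2)) 1 x
    have d3 := meas_dd (PP φ v (a 0) (b 0)) Complex.I x
    have d4 := meas_dd (PP φ v (a 2) (b 2)) Complex.I x
    apply Measurable.aestronglyMeasurable
    unfold flux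
    exact (((Complex.measurable_re.comp c1).mul ((d1.mul d2).sub (d3.mul d4))).add
      ((Complex.measurable_im.comp c1).mul ((d1.mul d4).add (d3.mul d2)))).add
      ((((measurable_const.mul (c2.norm.pow_const 2)).mul (Complex.measurable_re.comp c1)).mul
        c3).mul c4)
  have hT := intervalIntegral.tendsto_integral_filter_of_dominated_convergence
    (μ := volume) (a := 0) (b := 2 * Real.pi)
    (fun _ => A * (T * T + 1) + A * (T + T) + |lam| * F ^ 2 * A) hmeas hbound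
    intervalIntegrable_const (Eventually.of_forall fun y _ => hLim y)
  have h0 : Tendsto (fun x : ℝ => ∫ y in (0 : ℝ)..2 * Real.pi, flux φ lam v a b (x + y * Complex.I))
      (𝓝[<] 0) (𝓝 0) := by
    refine tendsto_const_nhds.congr' ?_
    filter_upwards [self_mem_nhdsWithin] with x hx
    exact (hflux φ r lam c v a b hD hdat x hx).symm
  have h1 := tendsto_nhds_unique hT h0
  rw [intervalIntegral.integral_const_mul] at h1
  have h2 : (lam * c) ^ 2 ≠ 0 := pow_ne_zero _ (mul_ne_zero hlam.ne' hc)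
  have h3 := (mul_eq_zero.1 h1).resolve_left h2
  rw [hk] at h3
  exact h3

end Pool.Agent.P8H93.SV
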