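import Pool.Agent.P8H8.SV.Stm

/-! # Package VERT of project SV (helper93): from the base point version to the periodic version -/

set_option autoImplicit false

open MeasureTheory Set Filter Metric
open scoped Topology ContDiff ComplexConjugate

namespace Pool.Agent.P8H93.SV

open Pool.Agent.P8H8.SV

/-- a point of strict decrease at a small level -/
theorem exists_base {H dH : ℝ → ℝ} (hH : ∀ t, HasDerivAt H (dH t) t) {p q c : ℝ} (hpq : p < q)
    (hc : 0 < c) (hp : c ≤ H p) (hq : H q ≤ -c) :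
    ∃ t ∈ Ioo p q, dH t < 0 ∧ |H t| < c := by
  have hcont : Continuous H := continuous_iff_continuousAt.2 fun t => (hH t).continuousAt
  have hcl : IsClosed {x | c ≤ H x} := isClosed_le continuous_const hcont
  have hcl' : IsClosed {x | H x ≤ -c} := isClosed_le hcont continuous_const
  obtain ⟨s, hs⟩ := (isCompact_Icc (a := p) (b := q)).inter_right hcl |>.exists_isGreatest
    ⟨p, ⟨le_rfl, hpq.le⟩, hp⟩
  have hsq : s ≠ q := by
    rintro rfl
    have h1 : c ≤ H s := hs.1.2
    linarith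
  have hsq' : s < q := lt_of_le_of_ne hs.1.1.2 hsq
  obtain ⟨t, ht⟩ := (isCompact_Icc (a := s) (b := q)).inter_right hcl' |>.exists_isLeast
    ⟨q, ⟨hsq'.le, le_rfl⟩, hq⟩
  have hst : s ≠ t := by
    rintro rfl
    have h1 : c ≤ H s := hs.1.2
    have h2 : H s ≤ -c := ht.1.2
    linarith
  have hst' : s < t := lt_of_le_of_ne ht.1.1.1 hst
  obtain ⟨u, hu, e⟩ := exists_hasDerivAt_eq_slope H dH hst' hcont.continuousOn fun x _ => hH x
  have h1 : c ≤ H s := hs.1.2
  have h2 : H t ≤ -c := ht.1.2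
  refine ⟨u, ⟨lt_of_le_of_lt hs.1.1.1 hu.1, lt_of_lt_of_le hu.2 ht.1.1.2⟩, ?_, ?_⟩
  · rw [e]
    exact div_neg_of_neg_of_pos (by linarith) (by linarith)
  · rw [abs_lt]
    constructor
    · by_contra h
      have h3 := ht.2 ⟨⟨hu.1.le, hu.2.le.trans ht.1.1.2⟩, by simpa using not_lt.1 h⟩
      exact absurd hu.2 (not_lt.2 h3)
    · by_contra h
      have h3 := hs.2 ⟨⟨hs.1.1.1.trans hu.1.le, hu.2.le.trans ht.1.1.2⟩, by simpa using not_lt.1 h⟩
      exact absurd hu.1 (not_lt.2 h3)

/-- package VERT -/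
theorem t_VERT : S_BASE → S_VERT := by
  intro hbase n Θ H g σ κ R hn hΘ hΘm hΘ0 hΘp hH hg hσ hσ1 hκ hHp hgp hσp hA
  obtain ⟨p, hp1, hp2, hp3⟩ := hA
  have hne : (Finset.range (2 * n)).Nonempty := ⟨0, by rw [Finset.mem_range]; omega⟩
  obtain ⟨i0, hi0, hmin⟩ := Finset.exists_min_image (Finset.range (2 * n)) (fun i => |H (p i)|) hne
  rw [Finset.mem_range] at hi0
  obtain ⟨c, hc⟩ : ∃ c, c = |H (p i0)| := ⟨_, rfl⟩
  have hc0 : 0 < c := by
    rw [hc, abs_pos]
    intro h
    have := hp3 i0 hi0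
    rw [h, mul_zero] at this
    exact lt_irrefl _ this
  have hcm : ∀ i < 2 * n, c ≤ (-1) ^ i * H (p i) := by
    intro i hi
    have h1 := hmin i (Finset.mem_range.2 hi)
    rw [← hc] at h1
    have h2 : |(-1) ^ i * H (p i)| = |H (p i)| := by
      rw [abs_mul, abs_pow, abs_neg, abs_one, one_pow, one_mul]
    rw [← h2, abs_of_pos (hp3 i hi)] at h1
    exact h1
  have h0 : c ≤ H (p 0) := by
    have := hcm 0 (by omega)
    simpa using this
  have h1 : H (p 1) ≤ -c := by
    have := hcm 1 (by omega)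
    simp only [pow_one, neg_mul, one_mul] at this
    linarith
  obtain ⟨t0, ht0, hd, hs⟩ := exists_base hH (hp1 0 (by omega)) hc0 h0 h1
  have hΘt : 0 < deriv Θ t0 := by
    rcases (hΘ0 t0).lt_or_eq with h | h
    · exact h
    · rw [← h, mul_zero] at hd
      exact absurd hd (lt_irrefl _)
  have hgt : g t0 < 0 := by
    by_contra h
    have := mul_nonneg (not_lt.1 h) hΘt.le
    linarith
  apply hbase n Θ (fun t => H t - H t0) g σ κ (R + H t0) hn hΘ hΘm hΘ0 hΘp
    (fun t => (hH t).sub_const _) (fun t => by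
      convert hg t using 1
      ring) hσ hσ1 hκ (fun t => by simp only [hHp]) hgp hσp t0 (sub_self _) hgt hΘt
  refine ⟨fun i => p (i + 1), ?_, ht0.2, ?_, ?_⟩
  · intro i hi
    exact hp1 (i + 1) (by omega)
  · have e : 2 * n - 1 + 1 = 2 * n := by omega
    simp only [e, hp2]
    linarith [ht0.1]
  · intro i hi
    obtain ⟨hs1, hs2⟩ := abs_lt.1 hs
    simp only
    have hv : c ≤ (-1) ^ (i + 1) * H (p (i + 1)) := by
      rcases Nat.lt_or_ge (i + 1) (2 * n) with h | h
      · exact hcm _ h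
      · have e : i + 1 = 2 * n := by omega
        have e2 : (-1 : ℝ) ^ (2 * n) = 1 := by rw [pow_mul]; simp
        rw [e, hp2, hHp, e2, one_mul]
        exact h0
    have h4 : (-1 : ℝ) ^ i * (H (p (i + 1)) - H t0) = -((-1) ^ (i + 1) * H (p (i + 1))) - (-1) ^ i * H t0 := by
      rw [pow_succ]
      ring
    rw [h4]
    rcases neg_one_pow_eq_or ℝ i with h5 | h5 <;> rw [h5] <;> linarith

end Pool.Agent.P8H93.SV
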